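import Pool.Agent.N436.DF.Stm

/-!
# DF/3: effect of adding pair units
-/

set_option autoImplicit false

namespace Pool.Agent.N878.DF

open Pool.Agent.N436.DF Finset

variable {V : Type} [DecidableEq V]

theorem addm_m (H : Hub V) (t : ℤ) {x y : V} (hxy : x ≠ y) (u v : V) :
    (addm H t x y).m u v = H.m u v + ((if u = x ∧ v = y then t else 0) +
      (if u = y ∧ v = x then t else 0)) := by
  show (if (u = x ∧ v = y) ∨ (u = y ∧ v = x) then H.m u v + t else H.m u v) = _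
  by_cases h1 : u = x ∧ v = y
  · have h2 : ¬ (u = y ∧ v = x) := fun h => hxy (h1.1.symm.trans h.1)
    rw [if_pos (Or.inl h1), if_pos h1, if_neg h2, add_zero]
  · by_cases h2 : u = y ∧ v = x
    · rw [if_pos (Or.inr h2), if_neg h1, if_pos h2, zero_add]
    · rw [if_neg (not_or.2 ⟨h1, h2⟩), if_neg h1, if_neg h2, add_zero, add_zero]

theorem dsum (Y : Finset V) (x y : V) (t : ℤ) :
    ∑ u ∈ Y, ∑ v ∈ Y, (if u = x ∧ v = y then t else 0) = if x ∈ Y ∧ y ∈ Y then t else 0 := by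
  have h1 : ∀ u, ∑ v ∈ Y, (if u = x ∧ v = y then t else 0) =
      if u = x then (if y ∈ Y then t else 0) else 0 := by
    intro u
    by_cases h : u = x
    · simp [h]
    · simp [h]
  simp_rw [h1]
  rw [Finset.sum_ite_eq']
  by_cases hx : x ∈ Y <;> by_cases hy : y ∈ Y <;> simp [hx, hy]

theorem msum (H : Hub V) (t : ℤ) {x y : V} (hxy : x ≠ y) (Y : Finset V) :
    ∑ u ∈ Y, ∑ v ∈ Y, (addm H t x y).m u v =
      (∑ u ∈ Y, ∑ v ∈ Y, H.m u v) + if x ∈ Y ∧ y ∈ Y then 2 * t else 0 := by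
  simp_rw [addm_m H t hxy, Finset.sum_add_distrib, dsum]
  by_cases hx : x ∈ Y <;> by_cases hy : y ∈ Y <;> simp [hx, hy] <;> ring

theorem addm_ok : S_addm := by
  intro V _ P H t x y hO hxy ht
  refine ⟨?_, ?_, ?_, ?_⟩
  · refine ⟨hO.c_ge, hO.c1_le, hO.c2_le, hO.r01, hO.rsymm, hO.r0, ?_, ?_, ?_⟩
    · intro u v
      show 0 ≤ (if (u = x ∧ v = y) ∨ (u = y ∧ v = x) then H.m u v + t else H.m u v)
      split_ifs with h
      · rcases h with ⟨rfl, rfl⟩ | ⟨rfl, rfl⟩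
        · exact ht
        · rw [hO.msymm]; exact ht
      · exact hO.m_nn u v
    · intro u v
      rw [addm_m H t hxy, addm_m H t hxy, hO.msymm u v]
      have e1 : (u = x ∧ v = y) ↔ (v = y ∧ u = x) := and_comm
      have e2 : (u = y ∧ v = x) ↔ (v = x ∧ u = y) := and_comm
      simp only [e1, e2]
      ring
    · intro v
      rw [addm_m H t hxy, hO.m0]
      have h1 : ¬ (v = x ∧ v = y) := fun h => hxy (h.1.symm.trans h.2)
      have h2 : ¬ (v = y ∧ v = x) := fun h => hxy (h.2.symm.trans h.1)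
      rw [if_neg h1, if_neg h2]; norm_num
  · intro Y
    have h1 : ∀ (H : Hub V), ∑ u ∈ Y, ∑ v ∈ Y, ew P H u v =
        P.D * (∑ u ∈ Y, ∑ v ∈ Y, H.r u v) + P.a * ∑ u ∈ Y, ∑ v ∈ Y, H.m u v := by
      intro H
      simp only [ew, Finset.sum_add_distrib, Finset.mul_sum]
    unfold rho
    rw [h1, h1, msum H t hxy]
    have h2 : ∑ v ∈ Y, wt P (addm H t x y) v = ∑ v ∈ Y, wt P H v := rfl
    have h3 : ∑ u ∈ Y, ∑ v ∈ Y, (addm H t x y).r u v = ∑ u ∈ Y, ∑ v ∈ Y, H.r u v := rfl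
    rw [h2, h3]
    split_ifs <;> ring
  · intro S ht0 hx hy
    unfold eM
    rw [msum H t hxy, if_pos ⟨hx, hy⟩]
    linarith
  · intro S f p hy hC
    refine ⟨hC.nn, fun u hu v hv huv => ?_, fun u hu => ?_⟩
    · rw [addm_m H t hxy]
      have h1 : ¬ (u = x ∧ v = y) := fun h => hy (h.2 ▸ hv)
      have h2 : ¬ (u = y ∧ v = x) := fun h => hy (h.1 ▸ hu)
      rw [if_neg h1, if_neg h2, add_zero, add_zero]
      exact hC.pay u hu v hv huv
    · exact hC.cap u hu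

end Pool.Agent.N878.DF

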